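import Pool.Agent.H717.PR.Stm

/-!
# The gadget of a near pair against an interval vertex (by helper719)
-/

set_option autoImplicit false

namespace Pool.Agent.H719.PR.QC1

open Pool.Agent.H717.PR

theorem big {S N τ m m' off : ℤ} (hS : 2 * N + 10 * τ ≤ S) (hτ : 1 ≤ τ) (hN : 4 * τ ≤ N)
    (h : m ≠ m') (ho : |off| ≤ N + τ) : τ < |S * m - S * m' + off| := by
  obtain ⟨h1, h2⟩ := abs_le.1 ho
  rcases lt_or_gt_of_ne h with h3 | h3
  · have h4 : S * m + S ≤ S * m' := by nlinarith
    rw [lt_abs]
    right
    linarith
  · have h4 : S * m' + S ≤ S * m := by nlinarith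
    rw [lt_abs]
    left
    linarith

theorem max_or {a b τ : ℤ} (h : |max a b| ≤ τ) : |a| ≤ τ ∨ |b| ≤ τ := by
  rcases le_total a b with h1 | h1
  · rw [max_eq_right h1] at h
    exact Or.inr h
  · rw [max_eq_left h1] at h
    exact Or.inl h

theorem adj_iff (k k' : ℕ) (p q u v : Lb) (h1 : 1 ≤ k) (h2 : k ≤ 4) (hk : k' = 0 ∨ k' = 5) :
    (adj (k, (p, q)) (k', (u, v)) = true ∨ adj (k', (u, v)) (k, (p, q)) = true) ↔
      k' = 0 ∧ ((u = p ∧ v = p) ∨ (u = q ∧ v = q)) := by
  interval_cases k <;> rcases hk with rfl | rfl <;> simp [adj]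

theorem t_qc1 (h : S_mem) : S_qc1 := by
  intro I α β ν τ N S hM hS w hw z hz hw1 hw2 hz1
  obtain ⟨k, p, q⟩ := w
  obtain ⟨k', u, v⟩ := z
  have hw' := (h I _).1 hw
  have hz' := (h I _).1 hz
  simp only at hw1 hw2 hz1 hw' hz'
  obtain ⟨hp, hq, hnear⟩ : p ∈ base I ∧ q ∈ base I ∧ near I p q = true := by
    rcases hw' with h3 | h3 | h3
    · omega
    · exact h3.2.2
    · omega
  have hτ := hM.pos
  have hN := (hM.nu1 p hp).1.trans (hM.nu1 p hp).2
  rw [adj_iff k k' p q u v hw1 hw2 hz1]
  have hol : ol S τ α β ν (k, (p, q)) = S * max (α p) (α q) := by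
    simp only [ol, hw2, if_true]
  have hor : Pool.Agent.H717.PR.or S τ α β ν (k, (p, q)) = S * min (β p) (β q) := by
    simp only [Pool.Agent.H717.PR.or, hw2, if_true]
  rw [hol, hor]
  rcases hz1 with rfl | rfl
  · -- kind 0
    obtain ⟨huv, hu⟩ : u = v ∧ u ∈ base I := by
      rcases hz' with h3 | h3 | h3
      · exact h3.2
      · omega
      · omega
    subst huv
    have hlf : lf S α β ν (0, (u, u)) = S * α u := by simp [lf]
    have hrt : rt S α β ν (0, (u, u)) = S * β u := by simp [rt]
    rw [hlf, hrt]
    have key : ∀ p' q' : Lb, p' ∈ base I → q' ∈ base I → α p' < α q' → β p' < β q' →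
        (|max (S * β p' - S * β u) (S * α u - S * α q')| ≤ τ ↔ (u = p' ∨ u = q')) := by
      intro p' q' hp' hq' h1 h2
      have hS0 : 0 ≤ S := by linarith
      constructor
      · intro h3
        rcases max_or h3 with h4 | h4
        · left
          by_contra hne
          have h5 := big (off := 0) hS hτ hN (hM.bb p' hp' u hu (Ne.symm hne)) (by
            rw [abs_zero]; linarith)
          rw [add_zero] at h5
          linarith
        · right
          by_contra hne
          have h5 := big (off := 0) hS hτ hN (hM.aa u hu q' hq' hne) (by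
            rw [abs_zero]; linarith)
          rw [add_zero] at h5
          linarith
      · rintro (rfl | rfl)
        · have h3 : S * α u ≤ S * α q' := mul_le_mul_of_nonneg_left h1.le hS0
          rw [sub_self, max_eq_left (by linarith), abs_zero]
          linarith
        · have h3 : S * β p' ≤ S * β u := mul_le_mul_of_nonneg_left h2.le hS0
          rw [sub_self, max_eq_right (by linarith), abs_zero]
          linarith
    rcases hM.near p hp q hq hnear with ⟨h1, h2, h3⟩ | ⟨h1, h2, h3⟩
    · rw [max_eq_right h1.le, min_eq_left h3.le, key p q hp hq h1 h3]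
      constructor
      · rintro ⟨-, ⟨h4, -⟩ | ⟨h4, -⟩⟩
        · exact Or.inl h4
        · exact Or.inr h4
      · rintro (h4 | h4)
        · exact ⟨rfl, Or.inl ⟨h4, h4⟩⟩
        · exact ⟨rfl, Or.inr ⟨h4, h4⟩⟩
    · rw [max_eq_left h1.le, min_eq_right h3.le, key q p hq hp h1 h3]
      constructor
      · rintro ⟨-, ⟨h4, -⟩ | ⟨h4, -⟩⟩
        · exact Or.inr h4
        · exact Or.inl h4
      · rintro (h4 | h4)
        · exact ⟨rfl, Or.inr ⟨h4, h4⟩⟩
        · exact ⟨rfl, Or.inl ⟨h4, h4⟩⟩
  · -- kind 5
    obtain ⟨hu, hv, hfar⟩ : u ∈ base I ∧ v ∈ base I ∧ far I u v = true := by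
      rcases hz' with h3 | h3 | h3
      · omega
      · omega
      · exact h3.2.2
    have hnu := hM.nu1 u hu
    have key : ∀ p' q' : Lb, p' ∈ base I → q' ∈ base I →
        ¬ |max (S * β p' - rt S α β ν (5, (u, v))) (lf S α β ν (5, (u, v)) - S * α q')| ≤ τ := by
      intro p' q' hp' hq' hcon
      by_cases hbr : β u < α v
      · have hlf : lf S α β ν (5, (u, v)) = S * β u + (α v - β u) := by simp [lf, hbr]
        have hrt : rt S α β ν (5, (u, v)) = S * α v + ν u := by simp [rt, hbr]
        have ht := hM.tau v hv u hu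
        rw [hlf, hrt] at hcon
        rcases max_or hcon with h4 | h4
        · have h5 := big (off := -ν u) hS hτ hN (hM.ab v hv p' hp').symm (by
            rw [abs_le]; constructor <;> linarith)
          have h6 : S * β p' - S * α v + -ν u = S * β p' - (S * α v + ν u) := by ring
          rw [h6] at h5
          linarith
        · have h5 := big (off := α v - β u) hS hτ hN (hM.ab q' hq' u hu).symm (by
            rw [abs_le]; constructor <;> linarith)
          have h6 : S * β u - S * α q' + (α v - β u) = S * β u + (α v - β u) - S * α q' := by ring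
          rw [h6] at h5
          linarith
      · have hbr' : β v < α u := by
          rcases hM.far u hu v hv hfar with h7 | h7
          · exact absurd h7 hbr
          · exact h7
        have hlf : lf S α β ν (5, (u, v)) = S * β v - ν u := by simp [lf, hbr]
        have hrt : rt S α β ν (5, (u, v)) = S * α u - (α u - β v) := by simp [rt, hbr]
        have ht := hM.tau u hu v hv
        rw [hlf, hrt] at hcon
        rcases max_or hcon with h4 | h4
        · have h5 := big (off := α u - β v) hS hτ hN (hM.ab u hu p' hp').symm (by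
            rw [abs_le]; constructor <;> linarith)
          have h6 : S * β p' - S * α u + (α u - β v) = S * β p' - (S * α u - (α u - β v)) := by ring
          rw [h6] at h5
          linarith
        · have h5 := big (off := -ν u) hS hτ hN (hM.ab q' hq' v hv).symm (by
            rw [abs_le]; constructor <;> linarith)
          have h6 : S * β v - S * α q' + -ν u = S * β v - ν u - S * α q' := by ring
          rw [h6] at h5
          linarith
    constructor
    · rintro ⟨h3, -⟩
      omega
    · intro hcon
      exfalso
      rcases hM.near p hp q hq hnear with ⟨h1, h2, h3⟩ | ⟨h1, h2, h3⟩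
      · rw [max_eq_right h1.le, min_eq_left h3.le] at hcon
        exact key p q hp hq hcon
      · rw [max_eq_left h1.le, min_eq_right h3.le] at hcon
        exact key q p hq hp hcon

end Pool.Agent.H719.PR.QC1
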